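import Mathlib
import Pool.Agent.H47.Brandt

namespace Pool.Agent.Results.MP_92d133_al.BiIdeal

/-- the J-preorder: `a` lies in the principal ideal `S^1 b S^1` -/
def JLe {S : Type} [Semigroup S] (a b : S) : Prop :=
  ∃ x y : WithOne S, (a : WithOne S) = x * b * y

/-- finite J-height: a uniform bound on strictly increasing chains for the J-preorder -/
def FinHeight (S : Type) [Semigroup S] : Prop :=
  ∃ N : ℕ, ∀ (n : ℕ) (f : Fin n → S),
    (∀ i j, i < j → JLe (f i) (f j) ∧ ¬ JLe (f j) (f i)) → n ≤ N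

open Pool.Agent.H47.Brandt in
theorem result : ∃ (T : Type) (_ : Semigroup T), FinHeight T ∧ ∃ B : Subsemigroup T,
    (B : Set T).Nonempty ∧ (∀ a ∈ B, ∀ s : T, ∀ b ∈ B, a * s * b ∈ B) ∧ ¬ FinHeight B := by
  refine ⟨S, inferInstance, ⟨2, fun n f hf => ?_⟩, B, ⟨_, (el 0).2⟩,
    fun a ha s b _ => B_right _ _ (B_right _ _ ha), ?_⟩
  · by_contra hn
    have hs : ∀ x y : S, y ≠ S.z → JLe x y := fun x y hy => by
      obtain ⟨u, v, h⟩ := simple x y hy
      exact ⟨u, v, by rw [h]; rfl⟩
    have h01 := hf ⟨0, by omega⟩ ⟨1, by omega⟩ (by simp)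
    have h02 := hf ⟨0, by omega⟩ ⟨2, by omega⟩ (by simp)
    have h12 := hf ⟨1, by omega⟩ ⟨2, by omega⟩ (by simp)
    have e0 : f ⟨0, by omega⟩ = S.z := by_contra fun h => h01.2 (hs _ _ h)
    have e1 : f ⟨1, by omega⟩ = S.z := by_contra fun h => h12.2 (hs _ _ h)
    exact h01.2 ⟨1, 1, by rw [e0, e1]; simp⟩
  · rintro ⟨N, hN⟩
    have := hN (N + 1) (fun i => el (N - i)) fun i j hij => ⟨?_, ?_⟩
    · omega
    · obtain ⟨u, hu⟩ := el_le (N - j) (N - i) (by have : (i : ℕ) < j := hij; omega)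
      exact ⟨u, 1, by rw [hu]; simp⟩
    · rintro ⟨x, y, h⟩
      have h1 : (i : ℕ) < j := hij
      have h2 := j.2
      induction x using WithOne.recOneCoe <;> induction y using WithOne.recOneCoe <;>
        simp only [one_mul, mul_one, ← WithOne.coe_mul, WithOne.coe_inj] at h
      · have := congrArg Subtype.val h
        simp [el] at this
        omega
      · exact el_right _ _ _ (by rintro _ _ _ ⟨⟩) h
      · have := el_left _ _ _ h
        omega
      · exact el_right _ _ _ (end_false _ _) h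

end Pool.Agent.Results.MP_92d133_al.BiIdeal
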